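import Pool.Agent.H914R2.KDefs

/-!
# Comparison of two Weil cohomology theories: definitions
-/

open CategoryTheory AlgebraicGeometry

universe u v

namespace Pool.Agent.V7H5.TH

section Alg

variable {K K' : Type*} [Field K] [Field K'] {A A' B B' : Type*} [Ring A] [Algebra K A]
  [Ring A'] [Algebra K' A'] [Ring B] [Algebra K B] [Ring B'] [Algebra K' B']

/-- The map `f` is a homomorphism of rings, semilinear for the embedding `σ` of the coefficient fields,
compatible with the degrees and the trace maps, and its image spans `A'`. -/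
structure IsExt (σ : K →+* K') (gr : ℕ → Submodule K A) (gr' : ℕ → Submodule K' A')
    (tr : A →ₗ[K] K) (tr' : A' →ₗ[K'] K') (f : A → A') : Prop where
  one : f 1 = 1
  add : ∀ x y, f (x + y) = f x + f y
  mul : ∀ x y, f (x * y) = f x * f y
  smul : ∀ r x, f (r • x) = σ r • f x
  degree : ∀ i, ∀ x ∈ gr i, f x ∈ gr' i
  trace : ∀ x, tr' (f x) = σ (tr x)
  span : Submodule.span K' (Set.range f) = ⊤

/-- The maps `f` and `f'` correspond under the comparison maps `φ` and `ψ`. -/
def Commutes (f : A →ₐ[K] B) (f' : A' →ₐ[K'] B') (φ : A → A') (ψ : B → B') : Prop :=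
  ∀ x, ψ (f x) = f' (φ x)

end Alg

open Pool.Agent.H914 Pool.Agent.H914.VarClass Pool.Agent.H914.VarClass.Obj
  Pool.Agent.H914.WeilCohomology

variable {k : Type u} [Field k] {𝒱 : VarClass k} {ops : CycleOps 𝒱}

/-- A comparison of the theory `W'` with the theory `W`, whose coefficient field is embedded in the one of
`W'`: ring homomorphisms from the cohomology of `W` to that of `W'`, whose images span the cohomology
of `W'`, compatible with degrees, trace maps, pull-backs and the classes of algebraic cycles (for
example the comparison of the singular cohomology with rational coefficients and the `ℓ`-adic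
cohomology of varieties over a subfield of the complex numbers). -/
structure Comparison (W W' : WeilCohomology.{u, v} ops) where
  /-- the embedding of the coefficients -/
  emb : W.K →+* W'.K
  /-- the maps between the cohomology groups -/
  φ : ∀ Y : 𝒱.Obj, W.H Y → W'.H Y
  ext : ∀ Y : 𝒱.Obj, IsExt emb (W.gr Y) (W'.gr Y) (W.tr Y) (W'.tr Y) (φ Y)
  map : ∀ (Y Z : 𝒱.Obj) (f : Y ⟶ Z), Commutes (W.map f) (W'.map f) (φ Z) (φ Y)
  cl : ∀ (Y : 𝒱.Obj) (z : Y.Cycles), φ Y (W.cl Y z) = W'.cl Y z

end Pool.Agent.V7H5.TH
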