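import Pool.Agent.V7H5.TH.Mor
import Pool.Agent.Y133.Half.Hdg

/-!
# The action of the group of nonzero complex numbers over an extension of the real numbers
-/

open CategoryTheory AlgebraicGeometry TensorProduct

universe u v

namespace Pool.Agent.V7H5.TH

open Module
open Pool.Agent.H914 Pool.Agent.H914.VarClass Pool.Agent.H914.VarClass.Obj
  Pool.Agent.H914.WeilCohomology Pool.Agent.H281R3.HT Pool.Agent.TH125.Gal Pool.Agent.V7H5.TI
open Pool.Agent.Y133.Half hiding pw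
open Pool.Agent.Y129 (pw TG PowerAction tateClasses)

section Alg

variable {K : Type v} [Field K] [Algebra K ℝ] {A : Type*} [Ring A] [Algebra K A]
  {N : Type v} [Field N] [Algebra K N] (g : ℝ →ₐ[K] N)

/-- The change of coefficients. -/
noncomputable def gm (A : Type*) [Ring A] [Algebra K A] : ℝ ⊗[K] A →ₐ[K] N ⊗[K] A :=
  Algebra.TensorProduct.map g (AlgHom.id K A)

lemma gm_tmul (r : ℝ) (a : A) : gm g A (r ⊗ₜ[K] a) = g r ⊗ₜ[K] a :=
  Algebra.TensorProduct.map_tmul _ _ _ _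

lemma gm_smul (r : ℝ) (y : ℝ ⊗[K] A) : gm g A (r • y) = g r • gm g A y := by
  induction y using TensorProduct.induction_on with
  | zero => rw [smul_zero, map_zero, smul_zero]
  | add x y hx hy => rw [smul_add, map_add, hx, hy, map_add, smul_add]
  | tmul s a =>
    rw [TensorProduct.smul_tmul', gm_tmul, gm_tmul, TensorProduct.smul_tmul', smul_eq_mul,
      smul_eq_mul, map_mul]

lemma gm_mem {P : Submodule K A} {y : ℝ ⊗[K] A} (hy : y ∈ P.baseChange ℝ) :
    gm g A y ∈ P.baseChange N := by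
  refine base_induction (P := fun y => gm g A y ∈ P.baseChange N) ?_ ?_ ?_ hy
  · rw [map_zero]; exact Submodule.zero_mem _
  · intro x y hx hy
    rw [map_add]; exact Submodule.add_mem _ hx hy
  · intro r a ha
    rw [gm_tmul]
    exact Submodule.tmul_mem_baseChange_of_mem _ ha

/-- The extension of the coefficients of an endomorphism. -/
noncomputable def extE (φ : ℝ ⊗[K] A →ₐ[ℝ] ℝ ⊗[K] A) : N ⊗[K] A →ₐ[N] N ⊗[K] A :=
  Algebra.TensorProduct.lift (Algebra.ofId N (N ⊗[K] A))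
    ((gm g A).comp ((φ.restrictScalars K).comp Algebra.TensorProduct.includeRight))
    (fun n _ => show Commute _ _ from Algebra.commutes n _)

lemma extE_tmul (φ : ℝ ⊗[K] A →ₐ[ℝ] ℝ ⊗[K] A) (n : N) (a : A) :
    extE g φ (n ⊗ₜ[K] a) = n • gm g A (φ ((1 : ℝ) ⊗ₜ[K] a)) := by
  rw [extE, Algebra.TensorProduct.lift_tmul, Algebra.ofId_apply, ← Algebra.smul_def]
  rfl

lemma extE_gm (φ : ℝ ⊗[K] A →ₐ[ℝ] ℝ ⊗[K] A) (y : ℝ ⊗[K] A) :
    extE g φ (gm g A y) = gm g A (φ y) := by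
  induction y using TensorProduct.induction_on with
  | zero => rw [map_zero, map_zero, map_zero, map_zero]
  | add x y hx hy => rw [map_add, map_add, hx, hy, map_add, map_add]
  | tmul r a =>
    rw [gm_tmul, extE_tmul, ← gm_smul, ← map_smul, TensorProduct.smul_tmul', smul_eq_mul,
      mul_one]

lemma extE_comp (φ ψ : ℝ ⊗[K] A →ₐ[ℝ] ℝ ⊗[K] A) :
    extE g (φ.comp ψ) = (extE g φ).comp (extE g ψ) := by
  apply AlgHom.ext
  intro x
  refine tmul_induction (P := fun x => extE g (φ.comp ψ) x = (extE g φ).comp (extE g ψ) x)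
    ?_ ?_ ?_ x
  · rw [map_zero, map_zero]
  · intro x y hx hy; rw [map_add, map_add, hx, hy]
  · intro l a
    rw [extE_tmul, AlgHom.comp_apply, AlgHom.comp_apply, extE_tmul, map_smul, extE_gm]

lemma extE_id : extE g (AlgHom.id ℝ (ℝ ⊗[K] A)) = AlgHom.id N (N ⊗[K] A) := by
  apply AlgHom.ext
  intro x
  refine tmul_induction (P := fun x => extE g (AlgHom.id ℝ (ℝ ⊗[K] A)) x =
    AlgHom.id N (N ⊗[K] A) x) ?_ ?_ ?_ x
  · rw [map_zero, map_zero]
  · intro x y hx hy; rw [map_add, map_add, hx, hy]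
  · intro l a
    rw [extE_tmul, AlgHom.id_apply, AlgHom.id_apply, gm_tmul, map_one, TensorProduct.smul_tmul',
      smul_eq_mul, mul_one]

/-- The action over `N`. -/
noncomputable def rhoE (h : ℂˣ → (ℝ ⊗[K] A →ₐ[ℝ] ℝ ⊗[K] A)) (h1 : h 1 = AlgHom.id ℝ _)
    (hm : ∀ s t, h (s * t) = (h s).comp (h t)) : ℂˣ →* ((N ⊗[K] A) ≃ₐ[N] (N ⊗[K] A)) where
  toFun t := AlgEquiv.ofAlgHom (extE g (h t)) (extE g (h t⁻¹))
    (by rw [← extE_comp, ← hm, mul_inv_cancel, h1, extE_id])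
    (by rw [← extE_comp, ← hm, inv_mul_cancel, h1, extE_id])
  map_one' := by
    apply AlgEquiv.ext
    intro x
    change extE g (h 1) x = x
    rw [h1, extE_id]
    rfl
  map_mul' s t := by
    apply AlgEquiv.ext
    intro x
    change extE g (h (s * t)) x = extE g (h s) (extE g (h t) x)
    rw [hm, extE_comp]
    rfl

/-- The character `t ↦ |t| ^ 2`. -/
noncomputable def chiE : ℂˣ →* Nˣ :=
  Units.map ((g : ℝ →* N).comp (Complex.normSq : ℂ →* ℝ))

lemma chiE_pow (t : ℂˣ) (j : ℕ) : ((chiE g t : Nˣ) : N) ^ j = g (‖(t : ℂ)‖ ^ (2 * j)) := by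
  have h1 : ((chiE g t : Nˣ) : N) = g (Complex.normSq (t : ℂ)) := rfl
  rw [h1, ← map_pow, Complex.normSq_eq_norm_sq, pow_mul]

/-- Subgroups of finite index of the group of nonzero complex numbers. -/
lemma mem_of_finiteIndex {Δ : Subgroup ℂˣ} (hΔ : Δ.FiniteIndex) (t : ℂˣ) : t ∈ Δ := by
  obtain ⟨n, hn, h⟩ : ∃ n : ℕ, n ≠ 0 ∧ ∀ s : ℂˣ, s ^ n ∈ Δ :=
    ⟨Δ.index, hΔ.index_ne_zero, fun s => Subgroup.pow_index_mem Δ s⟩
  obtain ⟨z, hz⟩ := IsAlgClosed.exists_pow_nat_eq (t : ℂ) (Nat.pos_of_ne_zero hn)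
  have hz0 : z ≠ 0 := by
    rintro rfl
    rw [zero_pow hn] at hz
    exact t.ne_zero hz.symm
  have h1 : (Units.mk0 z hz0) ^ n = t := by
    apply Units.ext
    rw [Units.val_pow_eq_pow_val, Units.val_mk0, hz]
  rw [← h1]
  exact h _

end Alg

variable {k : Type u} [Field k] {𝒱 : VarClass k} {ops : CycleOps 𝒱}
  {W : WeilCohomology.{u, v} ops} [Algebra W.K ℝ] {X Y Z : 𝒱.Obj} (Ψ : HodgeSystem W)
  {N : Type v} [Field N] [Algebra W.K N] (g : ℝ →ₐ[W.K] N)

/-- The action on the cohomology of the powers of `X` over `N`. -/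
noncomputable def rhoH (X : 𝒱.Obj) (n : ℕ) :
    ℂˣ →* ((baseW W N).H (pw X n) ≃ₐ[(baseW W N).K] (baseW W N).H (pw X n)) :=
  (rhoE g (Ψ.h (pw X n)) (Ψ.h_one _) (Ψ.h_mul _) :
    ℂˣ →* ((N ⊗[W.K] W.H (pw X n)) ≃ₐ[N] (N ⊗[W.K] W.H (pw X n))))

/-- The character. -/
noncomputable def chiH : ℂˣ →* (baseW W N).Kˣ := (chiE g : ℂˣ →* Nˣ)

lemma rhoH_tmul (n : ℕ) (t : ℂˣ) (l : N) (a : W.H (pw X n)) :
    rhoH Ψ g X n t (l ⊗ₜ[W.K] a : N ⊗[W.K] W.H (pw X n)) =
      (l • gm g (W.H (pw X n)) (Ψ.h (pw X n) t ((1 : ℝ) ⊗ₜ[W.K] a)) :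
        N ⊗[W.K] W.H (pw X n)) :=
  extE_tmul g (Ψ.h (pw X n) t) l a

lemma rho_cl (n : ℕ) (t : ℂˣ) {j : ℕ} {z : (pw X n).Cycles} (hz : (pw X n).IsCyc j z) :
    extE g (Ψ.h (pw X n) t) ((1 : N) ⊗ₜ[W.K] W.cl (pw X n) z) =
      ((chiE g t : Nˣ) : N) ^ j • ((1 : N) ⊗ₜ[W.K] W.cl (pw X n) z) := by
  rw [extE_tmul, Ψ.cyc hz, gm_smul, gm_tmul, map_one, one_smul, chiE_pow]

/-- The action is a power action. -/
theorem powerAction_hodge (X : 𝒱.Obj) :
    PowerAction (baseW W N) X (chiH g) (rhoH Ψ g X) where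
  galois n := by
    refine ⟨?_, ?_, ?_, ?_⟩
    · intro t i a ha
      have ha' : a ∈ (W.gr (pw X n) i).baseChange N := ha
      refine base_induction (P := fun a : N ⊗[W.K] W.H (pw X n) =>
        extE g (Ψ.h (pw X n) t) a ∈ (W.gr (pw X n) i).baseChange N) ?_ ?_ ?_ ha'
      · rw [map_zero]; exact Submodule.zero_mem _
      · intro x y hx hy
        rw [map_add]; exact Submodule.add_mem _ hx hy
      · intro l a ha
        rw [extE_tmul]
        exact Submodule.smul_mem _ _ (gm_mem g (Ψ.gr_mem t ha))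
    · intro t a
      have key : ∀ i, ∀ c ∈ W.gr (pw X n) i,
          formBase N (W.tr (pw X n)) (extE g (Ψ.h (pw X n) t) ((1 : N) ⊗ₜ[W.K] c)) =
          ((chiE g t : Nˣ) : N) ^ (pw X n).dim *
            formBase N (W.tr (pw X n)) ((1 : N) ⊗ₜ[W.K] c) := by
        intro i c hc
        by_cases hi : i = 2 * (pw X n).dim
        · subst hi
          rw [extE_tmul, Ψ.deg hc, gm_smul, gm_tmul, map_one, one_smul, chiE_pow, map_smul,
            smul_eq_mul]
        · have h1 : formBase N (W.tr (pw X n)) ((1 : N) ⊗ₜ[W.K] c) = 0 := by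
            rw [formBase_tmul, W.tr_eq_zero hc hi, map_zero, mul_zero]
          have h2 : extE g (Ψ.h (pw X n) t) ((1 : N) ⊗ₜ[W.K] c) ∈
              (W.gr (pw X n) i).baseChange N := by
            rw [extE_tmul, one_smul]
            exact gm_mem g (Ψ.gr_mem t hc)
          have h3 := (baseW W N).tr_eq_zero (X := pw X n) (i := i) h2 hi
          have h4 : formBase N (W.tr (pw X n)) (extE g (Ψ.h (pw X n) t) ((1 : N) ⊗ₜ[W.K] c)) =
            0 := h3
          rw [h1, h4, mul_zero]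
      have key2 : ∀ c : W.H (pw X n),
          formBase N (W.tr (pw X n)) (extE g (Ψ.h (pw X n) t) ((1 : N) ⊗ₜ[W.K] c)) =
          ((chiE g t : Nˣ) : N) ^ (pw X n).dim *
            formBase N (W.tr (pw X n)) ((1 : N) ⊗ₜ[W.K] c) := by
        intro c
        refine gr_induction (W.isInternal (pw X n)) (p := fun c =>
          formBase N (W.tr (pw X n)) (extE g (Ψ.h (pw X n) t) ((1 : N) ⊗ₜ[W.K] c)) =
          ((chiE g t : Nˣ) : N) ^ (pw X n).dim *
            formBase N (W.tr (pw X n)) ((1 : N) ⊗ₜ[W.K] c)) key ?_ c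
        intro x y hx hy
        rw [TensorProduct.tmul_add, map_add, map_add, map_add, hx, hy, mul_add]
      refine tmul_induction (P := fun a : N ⊗[W.K] W.H (pw X n) =>
        formBase N (W.tr (pw X n)) (extE g (Ψ.h (pw X n) t) a) =
          ((chiE g t : Nˣ) : N) ^ (pw X n).dim * formBase N (W.tr (pw X n)) a) ?_ ?_ ?_ a
      · rw [map_zero, map_zero, mul_zero]
      · intro x y hx hy
        rw [map_add, map_add, map_add, hx, hy, mul_add]
      · intro l a
        have h1 : (l ⊗ₜ[W.K] a : N ⊗[W.K] W.H (pw X n)) = l • ((1 : N) ⊗ₜ[W.K] a) := by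
          rw [TensorProduct.smul_tmul', smul_eq_mul, mul_one]
        rw [h1, map_smul, map_smul, map_smul, key2, smul_eq_mul, smul_eq_mul]
        ring
    · rintro t j _ ⟨z, hz, rfl⟩
      exact ⟨(baseW W N).cl _ z, ⟨z, hz, rfl⟩, rho_cl Ψ g n t hz⟩
    · rintro j _ ⟨z, hz, rfl⟩
      exact ⟨⊤, inferInstance, fun t _ => rho_cl Ψ g n t hz⟩
  proj n i := by
    intro t a
    have key : ∀ a : W.H X, extE g (Ψ.h (pw X n) t)
        (mapBase N (W.map (Pool.Agent.Y129.pj X n i)) ((1 : N) ⊗ₜ[W.K] a)) =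
        mapBase N (W.map (Pool.Agent.Y129.pj X n i))
          (extE g (Ψ.h X t) ((1 : N) ⊗ₜ[W.K] a)) := by
      intro a
      have h1 : mapBase N (W.map (Pool.Agent.Y129.pj X n i)) ((1 : N) ⊗ₜ[W.K] a) =
        (1 : N) ⊗ₜ[W.K] (W.map (Pool.Agent.Y129.pj X n i) a) :=
        Algebra.TensorProduct.map_tmul _ _ _ _
      have h2 : ∀ y : ℝ ⊗[W.K] W.H X, mapBase N (W.map (Pool.Agent.Y129.pj X n i))
          (gm g (W.H X) y) = gm g _ (mapR W (Pool.Agent.Y129.pj X n i) y) := by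
        intro y
        induction y using TensorProduct.induction_on with
        | zero => rw [map_zero, map_zero, map_zero, map_zero]
        | add x y hx hy => rw [map_add, map_add, hx, hy, map_add, map_add]
        | tmul r a =>
          rw [gm_tmul, mapR, Algebra.TensorProduct.map_tmul, Algebra.TensorProduct.map_tmul,
            gm_tmul]
          rfl
      have h3 := Ψ.nat (Pool.Agent.Y129.pj X n i) t ((1 : ℝ) ⊗ₜ[W.K] a)
      have h4 : mapR W (Pool.Agent.Y129.pj X n i) ((1 : ℝ) ⊗ₜ[W.K] a) =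
        (1 : ℝ) ⊗ₜ[W.K] (W.map (Pool.Agent.Y129.pj X n i) a) :=
        Algebra.TensorProduct.map_tmul _ _ _ _
      rw [h1, extE_tmul, extE_tmul, one_smul, one_smul, h2, ← h3, h4]
    refine tmul_induction (P := fun a : N ⊗[W.K] W.H X => extE g (Ψ.h (pw X n) t)
        (mapBase N (W.map (Pool.Agent.Y129.pj X n i)) a) =
        mapBase N (W.map (Pool.Agent.Y129.pj X n i)) (extE g (Ψ.h X t) a)) ?_ ?_ ?_ a
    · rw [map_zero, map_zero, map_zero, map_zero]
    · intro x y hx hy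
      rw [map_add, map_add, map_add, map_add, hx, hy]
    · intro l a
      have h1 : (l ⊗ₜ[W.K] a : N ⊗[W.K] W.H X) = l • ((1 : N) ⊗ₜ[W.K] a) := by
        rw [TensorProduct.smul_tmul', smul_eq_mul, mul_one]
      rw [h1, map_smul, map_smul, map_smul, map_smul, key]

/-- The Tate classes of the action are the classes of type `(j, j)`. -/
lemma tate_hodge {n j : ℕ} {c : N ⊗[W.K] W.H (pw X n)}
    (hc : c ∈ tateClasses (chiH g) ((baseW W N).gr (pw X n)) (rhoH Ψ g X n) j) (t : ℂˣ) :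
    extE g (Ψ.h (pw X n) t) c = g (‖(t : ℂ)‖ ^ (2 * j)) • c := by
  obtain ⟨-, Δ, hΔ, h⟩ := hc
  have h1 : extE g (Ψ.h (pw X n) t) c = ((chiE g t : Nˣ) : N) ^ j • c :=
    h t (mem_of_finiteIndex hΔ t)
  rw [h1, chiE_pow]

end Pool.Agent.V7H5.TH
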