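import Pool.Agent.V7H5.TH.HAct

/-!
# Group-like classes are combinations of Hodge classes
-/

open CategoryTheory AlgebraicGeometry TensorProduct

universe u v

namespace Pool.Agent.V7H5.TH

open Module
open Pool.Agent.H914 Pool.Agent.H914.VarClass Pool.Agent.H914.VarClass.Obj
  Pool.Agent.H914.WeilCohomology Pool.Agent.H281R3.HT Pool.Agent.TH125.Gal Pool.Agent.V7H5.TI
open Pool.Agent.Y133.Half hiding pw
open Pool.Agent.Y129 (pw TG PowerAction tateClasses)

section Alg

variable {K : Type v} [Field K] {A : Type*} [Ring A] [Algebra K A]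
  {F N : Type v} [Field F] [Algebra K F] [Field N] [Algebra K N] (f : F →ₐ[K] N)

/-- The change of coefficients. -/
noncomputable def fm (A : Type*) [Ring A] [Algebra K A] : F ⊗[K] A →ₐ[K] N ⊗[K] A :=
  Algebra.TensorProduct.map f (AlgHom.id K A)

lemma fm_tmul (r : F) (a : A) : fm f A (r ⊗ₜ[K] a) = f r ⊗ₜ[K] a :=
  Algebra.TensorProduct.map_tmul _ _ _ _

lemma fm_smul (r : F) (y : F ⊗[K] A) : fm f A (r • y) = f r • fm f A y := by
  induction y using TensorProduct.induction_on with
  | zero => rw [smul_zero, map_zero, smul_zero]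
  | add x y hx hy => rw [smul_add, map_add, hx, hy, map_add, smul_add]
  | tmul s a =>
    rw [TensorProduct.smul_tmul', fm_tmul, fm_tmul, TensorProduct.smul_tmul', smul_eq_mul,
      smul_eq_mul, map_mul]

lemma fm_mem {P : Submodule K A} {y : F ⊗[K] A} (hy : y ∈ P.baseChange F) :
    fm f A y ∈ P.baseChange N := by
  refine base_induction (P := fun y => fm f A y ∈ P.baseChange N) ?_ ?_ ?_ hy
  · rw [map_zero]; exact Submodule.zero_mem _
  · intro x y hx hy
    rw [map_add]; exact Submodule.add_mem _ hx hy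
  · intro r a ha
    rw [fm_tmul]
    exact Submodule.tmul_mem_baseChange_of_mem _ ha

lemma fm_map {B : Type*} [Ring B] [Algebra K B] (p : A →ₐ[K] B) (y : F ⊗[K] A) :
    fm f B (mapBase F p y) = mapBase N p (fm f A y) := by
  refine tmul_induction (P := fun y => fm f B (mapBase F p y) = mapBase N p (fm f A y))
    ?_ ?_ ?_ y
  · rw [map_zero, map_zero, map_zero, map_zero]
  · intro x y hx hy
    rw [map_add, map_add, hx, hy, map_add, map_add]
  · intro l a
    rw [Algebra.TensorProduct.map_tmul, fm_tmul, fm_tmul, Algebra.TensorProduct.map_tmul]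
    rfl

lemma fm_tr (tr : A →ₗ[K] K) (y : F ⊗[K] A) :
    formBase N tr (fm f A y) = f (formBase F tr y) := by
  refine tmul_induction (P := fun y => formBase N tr (fm f A y) = f (formBase F tr y)) ?_ ?_ ?_ y
  · rw [map_zero, map_zero, map_zero, map_zero]
  · intro x y hx hy
    rw [map_add, map_add, hx, hy, map_add, map_add]
  · intro l a
    rw [fm_tmul, formBase_tmul, formBase_tmul, map_mul, AlgHom.commutes]

variable [Algebra K ℝ]

/-- The linear map `a ↦ (1 ⊗ φ) (D a)`. -/
noncomputable def functional (D : A →ₗ[K] ℝ ⊗[K] A) (φ : A →ₗ[K] K) : A →ₗ[K] ℝ :=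
  (TensorProduct.rid K ℝ).toLinearMap ∘ₗ LinearMap.lTensor ℝ φ ∘ₗ D

lemma rid_gm (g : ℝ →ₐ[K] N) (φ : A →ₗ[K] K) (y : ℝ ⊗[K] A) :
    TensorProduct.rid K N (LinearMap.lTensor N φ (gm g A y)) =
      g (TensorProduct.rid K ℝ (LinearMap.lTensor ℝ φ y)) := by
  induction y using TensorProduct.induction_on with
  | zero => simp only [map_zero]
  | add x y hx hy => simp only [map_add, hx, hy]
  | tmul r a =>
    rw [gm_tmul, LinearMap.lTensor_tmul, LinearMap.lTensor_tmul, TensorProduct.rid_tmul,
      TensorProduct.rid_tmul, map_smul]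

lemma eq_zero_of_functional {y : ℝ ⊗[K] A}
    (h : ∀ φ : A →ₗ[K] K, TensorProduct.rid K ℝ (LinearMap.lTensor ℝ φ y) = 0) : y = 0 := by
  have key : ∀ (i : Basis.ofVectorSpaceIndex K A) (y : ℝ ⊗[K] A),
      (Algebra.TensorProduct.basis ℝ (Basis.ofVectorSpace K A)).repr y i =
      TensorProduct.rid K ℝ (LinearMap.lTensor ℝ ((Basis.ofVectorSpace K A).coord i) y) := by
    intro i y
    induction y using TensorProduct.induction_on with
    | zero => simp only [map_zero, Finsupp.zero_apply]
    | add x y hx hy => simp only [map_add, Finsupp.add_apply, hx, hy]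
    | tmul r a =>
      rw [Algebra.TensorProduct.basis_repr_tmul, Finsupp.smul_apply, Finsupp.mapRange_apply,
        LinearMap.lTensor_tmul, TensorProduct.rid_tmul, Basis.coord_apply, smul_eq_mul,
        Algebra.smul_def, mul_comm]
  rw [← LinearEquiv.map_eq_zero_iff
    (Algebra.TensorProduct.basis ℝ (Basis.ofVectorSpace K A)).repr]
  ext i
  rw [key, h, Finsupp.zero_apply]

variable [CharZero K]

/-- A linear condition, given by a map with values in the extension to the real numbers, which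
holds after all pairs of embeddings holds for the coordinates. -/
theorem coord_of_pairs (D : A →ₗ[K] ℝ ⊗[K] A) {b : F ⊗[K] A} (Λ : ∀ (N : Type v) [Field N]
    [Algebra K N] (_ : ℝ →ₐ[K] N), N ⊗[K] A →ₗ[N] N ⊗[K] A)
    (hΛ : ∀ (N : Type v) [Field N] [Algebra K N] (g : ℝ →ₐ[K] N) (a : A),
      Λ N g ((1 : N) ⊗ₜ[K] a) = gm g A (D a))
    (hb : ∀ (N : Type v) [Field N] [Algebra K N] (f : F →ₐ[K] N) (g : ℝ →ₐ[K] N),
      Λ N g (fm f A b) = 0) (i : Basis.ofVectorSpaceIndex K F) : D (co F b i) = 0 := by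
  apply eq_zero_of_functional
  intro φ
  set ψ := functional D φ with hψ
  have h1 : LinearMap.lTensor F ψ b = 0 := by
    refine eq_zero_of_killed _ F inferInstance inferInstance _ rfl ?_
    intro N hN hKN f g
    have key : ∀ b : F ⊗[K] A, Algebra.TensorProduct.lift f g (fun _ _ => Commute.all _ _)
        (LinearMap.lTensor F ψ b) =
        TensorProduct.rid K N (LinearMap.lTensor N φ (Λ N g (fm f A b))) := by
      intro b
      refine tmul_induction (P := fun b => Algebra.TensorProduct.lift f g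
        (fun _ _ => Commute.all _ _) (LinearMap.lTensor F ψ b) =
        TensorProduct.rid K N (LinearMap.lTensor N φ (Λ N g (fm f A b)))) ?_ ?_ ?_ b
      · simp only [map_zero]
      · intro x y hx hy
        simp only [map_add, hx, hy]
      · intro l a
        have h2 : fm f A (l ⊗ₜ[K] a) = f l • ((1 : N) ⊗ₜ[K] a) := by
          rw [fm_tmul, TensorProduct.smul_tmul', smul_eq_mul, mul_one]
        have h3 : ∀ (n : N) (x : N ⊗[K] A), TensorProduct.rid K N (LinearMap.lTensor N φ (n • x)) =
            n * TensorProduct.rid K N (LinearMap.lTensor N φ x) := by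
          intro n x
          induction x using TensorProduct.induction_on with
          | zero => simp only [smul_zero, map_zero, mul_zero]
          | add x y hx hy => simp only [smul_add, map_add, hx, hy, mul_add]
          | tmul m a =>
            rw [TensorProduct.smul_tmul', LinearMap.lTensor_tmul, LinearMap.lTensor_tmul,
              TensorProduct.rid_tmul, TensorProduct.rid_tmul, smul_eq_mul, mul_smul_comm]
        rw [LinearMap.lTensor_tmul, Algebra.TensorProduct.lift_tmul, h2, map_smul, hΛ, h3, rid_gm]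
        rfl
    rw [key, hb N f g, map_zero, map_zero]
  have h2 : ∀ b : F ⊗[K] A, ψ (co F b i) = TensorProduct.lid K ℝ (LinearMap.rTensor ℝ
      ((Basis.ofVectorSpace K F).coord i) (LinearMap.lTensor F ψ b)) := by
    intro b
    refine tmul_induction (P := fun b => ψ (co F b i) = TensorProduct.lid K ℝ
      (LinearMap.rTensor ℝ ((Basis.ofVectorSpace K F).coord i) (LinearMap.lTensor F ψ b)))
      ?_ ?_ ?_ b
    · simp only [map_zero, Finsupp.zero_apply]
    · intro x y hx hy
      simp only [map_add, Finsupp.add_apply, hx, hy]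
    · intro l a
      rw [co_tmul, map_smul, LinearMap.lTensor_tmul, LinearMap.rTensor_tmul,
        TensorProduct.lid_tmul, Basis.coord_apply]
  have h3 := h2 b
  rw [h1, map_zero, map_zero] at h3
  exact h3

end Alg

variable {k : Type u} [Field k] {𝒱 : VarClass k} {ops : CycleOps 𝒱}
  {W W' : WeilCohomology.{u, v} ops} {X Y Z : 𝒱.Obj}

lemma span_tmul {K : Type*} [Field K] {A : Type*} [Ring A] [Algebra K A] {F N : Type*} [Field F]
    [Algebra K F] [Field N] [Algebra K N] (f : F →ₐ[K] N) :
    Submodule.span N (Set.range (Algebra.TensorProduct.map f (AlgHom.id K A))) = ⊤ := by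
  rw [eq_top_iff]
  intro x _
  refine tmul_induction (P := fun x => x ∈ Submodule.span N
    (Set.range (Algebra.TensorProduct.map f (AlgHom.id K A)))) ?_ ?_ ?_ x
  · exact Submodule.zero_mem _
  · intro x y hx hy
    exact Submodule.add_mem _ hx hy
  · intro l a
    have h1 : (l ⊗ₜ[K] a : N ⊗[K] A) = l • Algebra.TensorProduct.map f (AlgHom.id K A)
        ((1 : F) ⊗ₜ[K] a) := by
      rw [Algebra.TensorProduct.map_tmul, map_one, TensorProduct.smul_tmul', smul_eq_mul, mul_one]
      rfl
    rw [h1]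
    exact Submodule.smul_mem _ _ (Submodule.subset_span ⟨_, rfl⟩)

/-- The comparison given by an embedding of the coefficient fields. -/
noncomputable def baseCmp (W : WeilCohomology.{u, v} ops) {F N : Type v} [Field F]
    [Algebra W.K F] [Field N] [Algebra W.K N] (f : F →ₐ[W.K] N) :
    Cmpn (baseW W F) (baseW W N) where
  emb := (f : F →+* N)
  φ Y := ((fm f (W.H Y) : F ⊗[W.K] W.H Y →ₐ[W.K] N ⊗[W.K] W.H Y) :
    F ⊗[W.K] W.H Y →+* N ⊗[W.K] W.H Y)
  smul Y r x := fm_smul (A := W.H Y) f r x
  gr Y i x hx := fm_mem (A := W.H Y) f (P := W.gr Y i) hx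
  map Y Z p x := fm_map (A := W.H Z) f (W.map p) x
  tr Y x := fm_tr (A := W.H Y) f (W.tr Y) x
  cl Y z := by
    have h1 : fm f (W.H Y) ((1 : F) ⊗ₜ[W.K] W.cl Y z) = (1 : N) ⊗ₜ[W.K] W.cl Y z := by
      rw [fm_tmul, map_one]
    exact h1
  span Y := span_tmul f

lemma TG_proj {Γ : Type*} [Group Γ] {χ : Γ →* W.Kˣ}
    {ρ : ∀ n, Γ →* (W.H (pw X n) ≃ₐ[W.K] W.H (pw X n))} {n : ℕ} {c : W.H (pw X n)}
    (hc : c ∈ TG W X χ ρ n) (j : ℕ) :
    proj (W.isInternal (pw X n)) (2 * j) c ∈ tateClasses χ (W.gr (pw X n)) (ρ n) j := by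
  refine Submodule.iSup_induction (fun j => tateClasses χ (W.gr (pw X n)) (ρ n) j)
    (motive := fun c => proj (W.isInternal (pw X n)) (2 * j) c ∈
      tateClasses χ (W.gr (pw X n)) (ρ n) j) hc ?_ ?_ ?_
  · intro i a ha
    by_cases hij : i = j
    · subst hij
      rw [proj_same _ ha.1]
      exact ha
    · rw [proj_ne _ ha.1 (by omega)]
      exact Submodule.zero_mem _
  · rw [map_zero]; exact Submodule.zero_mem _
  · intro x y hx hy
    rw [map_add]; exact Submodule.add_mem _ hx hy

/-- Group-like classes on the powers are Tate classes. -/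
lemma GrpL.TG {Γ : Type*} [Group Γ] {χ : Γ →* W.Kˣ}
    {ρ : ∀ n, Γ →* (W.H (pw X n) ≃ₐ[W.K] W.H (pw X n))} (h : PowerAction W X χ ρ) {n : ℕ}
    {b : W.H (pw X n)} (hb : GrpL W (pw X n) b) : b ∈ Pool.Agent.Y129.TG W X χ ρ n := by
  have h1 := hb.mem (conn_TG h) (IsPw.of X n)
  rwa [extSys_pw] at h1

variable [Algebra W.K ℝ] (Ψ : HodgeSystem W)

/-- **Group-like classes are combinations of Hodge classes.** -/
theorem GrpL.hodge_pw {F : Type v} [Field F] [Algebra W.K F] {n : ℕ}
    {b : (baseW W F).H (pw X n)} (hb : GrpL (baseW W F) (pw X n) b) :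
    b ∈ ((hodgeSys Ψ).C (pw X n)).baseChange F := by
  have hN : ∀ i, 2 * (pw X n).dim + 1 ≤ i → (baseW W F).gr (pw X n) i = ⊥ :=
    fun i hi => (baseW W F).gr_eq_bot (pw X n) i (by omega)
  have h1 := LinearMap.congr_fun (sum_proj ((baseW W F).isInternal (pw X n)) hN) b
  rw [LinearMap.sum_apply, Module.End.one_apply] at h1
  rw [← h1]
  refine Submodule.sum_mem _ fun i _ => ?_
  rcases Nat.even_or_odd i with ⟨j, hj⟩ | ⟨j, hj⟩
  swap
  · have h2 : proj ((baseW W F).isInternal (pw X n)) i b = 0 := by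
      refine PH.ind (p := fun c => proj ((baseW W F).isInternal (pw X n)) i c = 0) ?_ ?_ ?_ hb.1
      · intro l hl x hx
        exact proj_ne _ hx (by omega)
      · rw [map_zero]
      · intro x y hx hy
        rw [map_add, hx, hy, add_zero]
    rw [h2]
    exact Submodule.zero_mem _
  · obtain rfl : i = 2 * j := by omega
    set bj : F ⊗[W.K] W.H (pw X n) := proj ((baseW W F).isInternal (pw X n)) (2 * j) b with hbj
    have hgr : bj ∈ (W.gr (pw X n) (2 * j)).baseChange F :=
      proj_mem ((baseW W F).isInternal (pw X n)) (2 * j) b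
    change bj ∈ ((hodgeSys Ψ).C (pw X n)).baseChange F
    apply mem_baseChange_of_co
    intro ι
    refine hodgeSpan.of (j := j) ⟨co_mem hgr ι, fun t => ?_⟩
    -- the linear condition
    let D : W.H (pw X n) →ₗ[W.K] ℝ ⊗[W.K] W.H (pw X n) :=
      (((Ψ.h (pw X n) t).restrictScalars W.K).comp
        (Algebra.TensorProduct.includeRight : W.H (pw X n) →ₐ[W.K] ℝ ⊗[W.K] W.H (pw X n))
        ).toLinearMap - TensorProduct.mk W.K ℝ (W.H (pw X n)) (‖(t : ℂ)‖ ^ (2 * j))
    have hD : ∀ a, D a = Ψ.h (pw X n) t ((1 : ℝ) ⊗ₜ[W.K] a) -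
        (‖(t : ℂ)‖ ^ (2 * j)) • ((1 : ℝ) ⊗ₜ[W.K] a) := by
      intro a
      rw [TensorProduct.smul_tmul', smul_eq_mul, mul_one]
      rfl
    have h3 := coord_of_pairs D (b := bj) (fun N _ _ g => (extE g (Ψ.h (pw X n) t)).toLinearMap -
      g (‖(t : ℂ)‖ ^ (2 * j)) • LinearMap.id) ?_ ?_ ι
    · rw [hD] at h3
      exact sub_eq_zero.1 h3
    · intro N _ _ g a
      rw [LinearMap.sub_apply, AlgHom.toLinearMap_apply, extE_tmul, one_smul,
        LinearMap.smul_apply, LinearMap.id_apply, hD, map_sub, gm_smul, gm_tmul, map_one]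
    · intro N _ _ f g
      have h4 : GrpL (baseW W N) (pw X n) ((baseCmp W f).φ _ b) := hb.cmp (baseCmp W f)
      have h5 := TG_proj (h4.TG (powerAction_hodge Ψ g X)) j
      rw [← (baseCmp W f).proj] at h5
      have h6 := tate_hodge Ψ g h5 t
      rw [LinearMap.sub_apply, LinearMap.smul_apply, LinearMap.id_apply, sub_eq_zero]
      exact h6

end Pool.Agent.V7H5.TH
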