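import Pool.Agent.V7H5.TI.Defs
import Pool.Agent.V7H5.TH.CDefs
import Pool.Agent.Y133.Half.HdgDefs

/-!
# Hodge classes on the powers of a variety: definitions
-/

open CategoryTheory AlgebraicGeometry Filter Topology

open scoped ENNReal

universe u v w

namespace Pool.Agent.V7H5.TH

open Pool.Agent.H914 Pool.Agent.H914.VarClass Pool.Agent.H914.VarClass.Obj
  Pool.Agent.H914.WeilCohomology Pool.Agent.Y129 Pool.Agent.Y133.Hdg Pool.Agent.R936
  Pool.Agent.V7H5.TI

variable {k : Type u} [Field k] {𝒱 : VarClass k} {ops : CycleOps 𝒱}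
  {W : WeilCohomology.{u, v} ops} [Algebra W.K ℝ]

/-- The dimension of the space of all Hodge classes (of all codimensions) on the product of `n + 1`
copies of `X`, divided by the rank of the group of all algebraic cycles modulo numerical
equivalence. -/
noncomputable def hodgeRatio (Ψ : HodgeStr W) (X : 𝒱.Obj) (n : ℕ) : ℝ≥0∞ :=
  (Set.finrank W.K {c | ∃ j, IsHodge Ψ (pw X n) j c} : ℝ≥0∞) / cycRank ops (pw X n)

/-- The algebraic classes have density zero among the Hodge classes on the powers of `X`: the
quotient `hodgeRatio` tends to infinity. -/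
def HodgeDensityZero (Ψ : HodgeStr W) (X : 𝒱.Obj) : Prop :=
  Tendsto (hodgeRatio Ψ X) atTop (𝓝 ⊤)

/-- The Hodge conjecture holds for all powers of `X`. -/
def StrongHodge (Ψ : HodgeStr W) (X : 𝒱.Obj) : Prop := ∀ n j, HodgeIn Ψ (pw X n) j

variable {W' : WeilCohomology.{u, v} ops} {X : 𝒱.Obj}

/-- All Tate classes on all powers of `X` are linear combinations of (the images of) Hodge classes of
the same codimension. -/
def TateInHodge (Ψ : HodgeStr W) (C : Comparison W W') (G : GaloisPowers.{u, v, w} W' X) : Prop :=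
  ∀ n j c, TateClass G n j c →
    c ∈ Submodule.span W'.K (C.φ (pw X n) '' {a | IsHodge Ψ (pw X n) j a})

/-- (The images of) all Hodge classes on all powers of `X` are Tate classes. -/
def HodgeInTate (Ψ : HodgeStr W) (C : Comparison W W') (G : GaloisPowers.{u, v, w} W' X) : Prop :=
  ∀ n j a, IsHodge Ψ (pw X n) j a → TateClass G n j (C.φ (pw X n) a)

end Pool.Agent.V7H5.TH
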