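import Pool.Agent.V7H5.TH.HConn
import Pool.Agent.V7H5.TH.HDefs

/-!
# Hodge classes and Tate classes
-/

open CategoryTheory AlgebraicGeometry TensorProduct Filter Topology

open scoped ENNReal

universe u v w

namespace Pool.Agent.V7H5.TH

open Module
open Pool.Agent.H914 Pool.Agent.H914.VarClass Pool.Agent.H914.VarClass.Obj
  Pool.Agent.H914.WeilCohomology Pool.Agent.H281R3.HT Pool.Agent.TH125.Gal Pool.Agent.V7H5.TI
open Pool.Agent.Y133.Half hiding pw cycRank IsHodge hodgeDim HodgeIn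
open Pool.Agent.Y129 (pw TG PowerAction tateClasses cycRank tateDim)
open Pool.Agent.Y133.Hdg (HodgeStr IsHodge HodgeIn)
open Pool.Agent.R936 (GaloisPowers)

variable {k : Type u} [Field k] {𝒱 : VarClass k} {ops : CycleOps 𝒱}
  {W W' : WeilCohomology.{u, v} ops} {X Y Z : 𝒱.Obj}

/-- Group-like classes on isomorphic varieties. -/
lemma GrpL.iso (θ : Y ≅ Z) {b : W.H Y} (hb : GrpL W Y b) : GrpL W Z (W.map θ.inv b) := by
  obtain ⟨h1, h2, c, hc, h3⟩ := hb
  let θθ : Z.prod Z ⟶ Y.prod Y := lift (fst _ _ ≫ θ.inv) (snd _ _ ≫ θ.inv)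
  have hxp : ∀ x y : W.H Y, W.map θθ (xp W x y) = xp W (W.map θ.inv x) (W.map θ.inv y) := by
    intro x y
    rw [xp_def, xp_def, map_mul, ← W.map_comp, ← W.map_comp, ← W.map_comp, ← W.map_comp,
      lift_fst, lift_snd]
  have hback : W.map θ.hom (W.map θ.inv b) = b := by
    rw [← W.map_comp, θ.hom_inv_id, W.map_id]
  have hΔ' : (W.map θθ).toLinearMap ∘ₗ W.corr c ∘ₗ (W.map θ.hom).toLinearMap ∈
      (algSys W).Op Z (Z.prod Z) :=
    Sys.Op.comp (op_map _) (Sys.Op.comp (Sys.Op.corr hc) (op_map _))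
  obtain ⟨d, hd, hde⟩ := Sys.mem_Op.1 hΔ'
  refine ⟨PH.map _ h1, fun h0 => h2 (by rw [← hback, h0, map_zero]), d, hd, ?_⟩
  rw [hde]
  change W.map θθ (W.corr c (W.map θ.hom (W.map θ.inv b))) = _
  rw [hback, h3, hxp]

/-- The system generated by the image of a system. -/
noncomputable def pushSys (C : Cmpn W W') (T : Sys W) : Sys W' where
  C Z := Submodule.span W'.K (C.φ Z '' (T.C Z))
  even {Z c} hc := by
    induction hc using Submodule.span_induction with
    | mem x hx => obtain ⟨a, ha, rfl⟩ := hx; exact C.even (T.even ha)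
    | zero => exact Submodule.zero_mem _
    | add x y _ _ hx hy => exact Submodule.add_mem _ hx hy
    | smul r x _ hx => exact Submodule.smul_mem _ _ hx
  one Z := Submodule.subset_span ⟨1, T.one Z, map_one _⟩
  mul {Z c d} hc hd := by
    induction hc using Submodule.span_induction with
    | mem x hx =>
      obtain ⟨a, ha, rfl⟩ := hx
      induction hd using Submodule.span_induction with
      | mem y hy =>
        obtain ⟨b, hb, rfl⟩ := hy
        exact Submodule.subset_span ⟨a * b, T.mul ha hb, map_mul _ _ _⟩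
      | zero => rw [mul_zero]; exact Submodule.zero_mem _
      | add x y _ _ hx hy => rw [mul_add]; exact Submodule.add_mem _ hx hy
      | smul r x _ hx => rw [mul_smul_comm]; exact Submodule.smul_mem _ _ hx
    | zero => rw [zero_mul]; exact Submodule.zero_mem _
    | add x y _ _ hx hy => rw [add_mul]; exact Submodule.add_mem _ hx hy
    | smul r x _ hx => rw [smul_mul_assoc]; exact Submodule.smul_mem _ _ hx
  map {Y Z} f c hc := by
    induction hc using Submodule.span_induction with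
    | mem x hx =>
      obtain ⟨a, ha, rfl⟩ := hx
      exact Submodule.subset_span ⟨W.map f a, T.map f ha, C.map _ _ _ _⟩
    | zero => rw [map_zero]; exact Submodule.zero_mem _
    | add x y _ _ hx hy => rw [map_add]; exact Submodule.add_mem _ hx hy
    | smul r x _ hx => rw [map_smul]; exact Submodule.smul_mem _ _ hx
  push {Y Z} f c hc := by
    induction hc using Submodule.span_induction with
    | mem x hx =>
      obtain ⟨a, ha, rfl⟩ := hx
      exact Submodule.subset_span ⟨W.push f a, T.push f ha, C.push _ _⟩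
    | zero => rw [map_zero]; exact Submodule.zero_mem _
    | add x y _ _ hx hy => rw [map_add]; exact Submodule.add_mem _ hx hy
    | smul r x _ hx => rw [map_smul]; exact Submodule.smul_mem _ _ hx

lemma pushSys_alg (C : Cmpn W W') {T : Sys W} (hT : ∀ Z, algSpan W Z ≤ T.C Z) (Z : 𝒱.Obj) :
    algSpan W' Z ≤ (pushSys C T).C Z := by
  refine Submodule.span_le.2 ?_
  intro x hx
  obtain ⟨j, z, hz, rfl⟩ := Set.mem_iUnion.1 hx
  exact Submodule.subset_span ⟨W.cl Z z, hT Z (Submodule.subset_span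
    (Set.mem_iUnion.2 ⟨j, z, hz, rfl⟩)), C.cl Z z⟩

section Ext

variable [Algebra W.K W'.K]

/-- The extension of the comparison. -/
noncomputable def extP (C : Cmpn W W') (h : ∀ r, C.emb r = algebraMap W.K W'.K r)
    (Y : 𝒱.Obj) : W'.K ⊗[W.K] W.H Y →+* W'.H Y :=
  letI : Algebra W.K (W'.H Y) := Algebra.compHom (W'.H Y) (algebraMap W.K W'.K)
  haveI : IsScalarTower W.K W'.K (W'.H Y) := IsScalarTower.of_algebraMap_eq' rfl
  (Algebra.TensorProduct.lift (Algebra.ofId W'.K (W'.H Y))
    ({ C.φ Y with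
        commutes' := fun r => by
          change C.φ Y (algebraMap W.K (W.H Y) r) = _
          rw [Algebra.algebraMap_eq_smul_one, C.smul, map_one, h]
          exact (Algebra.algebraMap_eq_smul_one _).symm } : W.H Y →ₐ[W.K] W'.H Y)
    (fun n _ => show Commute _ _ from Algebra.commutes n _)).toRingHom

lemma extP_tmul (C : Cmpn W W') (h : ∀ r, C.emb r = algebraMap W.K W'.K r) (l : W'.K)
    (a : W.H Y) : extP C h Y (l ⊗ₜ[W.K] a) = l • C.φ Y a := by
  let _ : Algebra W.K (W'.H Y) := Algebra.compHom (W'.H Y) (algebraMap W.K W'.K)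
  have : IsScalarTower W.K W'.K (W'.H Y) := IsScalarTower.of_algebraMap_eq' rfl
  change Algebra.TensorProduct.lift (Algebra.ofId W'.K (W'.H Y)) _ _ (l ⊗ₜ[W.K] a) = _
  rw [Algebra.TensorProduct.lift_tmul, Algebra.ofId_apply, ← Algebra.smul_def]
  rfl

lemma extP_smul (C : Cmpn W W') (h : ∀ r, C.emb r = algebraMap W.K W'.K r) (l : W'.K)
    (x : W'.K ⊗[W.K] W.H Y) : extP C h Y (l • x) = l • extP C h Y x := by
  refine tmul_induction (P := fun x : W'.K ⊗[W.K] W.H Y => extP C h Y (l • x) =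
    l • extP C h Y x) ?_ ?_ ?_ x
  · rw [smul_zero, map_zero, smul_zero]
  · intro x y hx hy
    rw [smul_add, map_add, hx, hy, map_add, smul_add]
  · intro m a
    rw [TensorProduct.smul_tmul', extP_tmul, extP_tmul, smul_smul, smul_eq_mul]

/-- The comparison after the extension of the coefficients. -/
noncomputable def extCmp (C : Cmpn W W') (h : ∀ r, C.emb r = algebraMap W.K W'.K r) :
    Cmpn (baseW W W'.K) W' where
  emb := RingHom.id W'.K
  φ Y := extP C h Y
  smul Y r x := extP_smul C h r x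
  gr Y i x hx := by
    have hx' : x ∈ (W.gr Y i).baseChange W'.K := hx
    refine base_induction (P := fun x : W'.K ⊗[W.K] W.H Y => extP C h Y x ∈ W'.gr Y i)
      ?_ ?_ ?_ hx'
    · rw [map_zero]; exact Submodule.zero_mem _
    · intro x y hx hy
      rw [map_add]; exact Submodule.add_mem _ hx hy
    · intro l a ha
      rw [extP_tmul]
      exact Submodule.smul_mem _ _ (C.gr Y i a ha)
  map Y Z f x := by
    refine tmul_induction (P := fun x : W'.K ⊗[W.K] W.H Z =>
      extP C h Y (mapBase W'.K (W.map f) x) = W'.map f (extP C h Z x)) ?_ ?_ ?_ x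
    · rw [map_zero, map_zero, map_zero, map_zero]
    · intro x y hx hy
      rw [map_add, map_add, hx, hy, map_add, map_add]
    · intro l a
      rw [Algebra.TensorProduct.map_tmul, extP_tmul, extP_tmul, C.map, map_smul]
      rfl
  tr Y x := by
    refine tmul_induction (P := fun x : W'.K ⊗[W.K] W.H Y =>
      W'.tr Y (extP C h Y x) = formBase W'.K (W.tr Y) x) ?_ ?_ ?_ x
    · rw [map_zero, map_zero, map_zero]
    · intro x y hx hy
      rw [map_add, map_add, hx, hy, map_add]
    · intro l a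
      rw [extP_tmul, map_smul, C.tr, h, formBase_tmul, smul_eq_mul]
  cl Y z := by
    have h1 : extP C h Y ((1 : W'.K) ⊗ₜ[W.K] W.cl Y z) = W'.cl Y z := by
      rw [extP_tmul, one_smul, C.cl]
    exact h1
  span Y := by
    rw [eq_top_iff, ← C.span Y]
    refine Submodule.span_le.2 ?_
    rintro _ ⟨a, rfl⟩
    exact Submodule.subset_span ⟨(1 : W'.K) ⊗ₜ[W.K] a, (extP_tmul C h 1 a).trans (one_smul _ _)⟩

/-- Descent of linear relations. -/
lemma descend (C : Cmpn W W') (h : ∀ r, C.emb r = algebraMap W.K W'.K r)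
    {P : Submodule W.K (W.H Y)} {a : W.H Y}
    (ha : C.φ Y a ∈ Submodule.span W'.K (C.φ Y '' P)) : a ∈ P := by
  have h1 : ∃ x ∈ P.baseChange W'.K, extP C h Y x = C.φ Y a := by
    have key : ∀ y ∈ Submodule.span W'.K (C.φ Y '' P), ∃ x ∈ P.baseChange W'.K,
        extP C h Y x = y := by
      intro y hy
      induction hy using Submodule.span_induction with
      | mem x hx =>
        obtain ⟨a, ha, rfl⟩ := hx
        exact ⟨(1 : W'.K) ⊗ₜ[W.K] a, Submodule.tmul_mem_baseChange_of_mem _ ha, by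
          rw [extP_tmul, one_smul]⟩
      | zero => exact ⟨0, Submodule.zero_mem _, map_zero _⟩
      | add x y _ _ hx hy =>
        obtain ⟨x', hx', rfl⟩ := hx
        obtain ⟨y', hy', rfl⟩ := hy
        exact ⟨x' + y', Submodule.add_mem _ hx' hy', map_add _ _ _⟩
      | smul r x _ hx =>
        obtain ⟨x', hx', rfl⟩ := hx
        exact ⟨r • x', Submodule.smul_mem _ _ hx', extP_smul C h r x'⟩
    exact key _ ha
  obtain ⟨x, hx, hxa⟩ := h1
  have h2 : x = (1 : W'.K) ⊗ₜ[W.K] a := by
    apply (extCmp C h).injective Y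
    change extP C h Y x = extP C h Y _
    rw [hxa, extP_tmul, one_smul]
  rw [h2] at hx
  obtain ⟨ι, hι⟩ : ∃ ι, (Basis.ofVectorSpace W.K W'.K).repr 1 ι ≠ 0 := by
    by_contra hcon
    push Not at hcon
    have h3 : (Basis.ofVectorSpace W.K W'.K).repr 1 = 0 := Finsupp.ext hcon
    rw [LinearEquiv.map_eq_zero_iff] at h3
    exact one_ne_zero h3
  have h3 := co_mem hx ι
  rw [co_tmul] at h3
  have h4 := P.smul_mem ((Basis.ofVectorSpace W.K W'.K).repr 1 ι)⁻¹ h3
  rwa [smul_smul, inv_mul_cancel₀ hι, one_smul] at h4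

end Ext

/-- Compatibility of operators with the comparison. -/
lemma pushSys_mem (C : Cmpn W W') {T : Sys W} {a : W.H Z} (ha : a ∈ T.C Z) :
    C.φ Z a ∈ (pushSys C T).C Z := Submodule.subset_span ⟨a, ha, rfl⟩

lemma nontrivial_cmp (C : Cmpn W W') [hX : Nontrivial (W.H X)] : Nontrivial (W'.H X) := by
  obtain ⟨a, ha⟩ := exists_ne (0 : W.H X)
  exact ⟨⟨C.φ X a, 0, fun h => ha (C.inj h)⟩⟩

section Hodge

variable [Algebra W.K ℝ] (Ψ : HodgeSystem W)

/-- **Classes of a system of finite index are combinations of Hodge classes.** -/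
theorem le_hodge (C : Cmpn W W') [Nontrivial (W.H X)] {T' : Sys W'}
    (hT' : ∀ Z, algSpan W' Z ≤ T'.C Z) {N : ℕ}
    (hN : Tendsto (fun n => (finrank W'.K (T'.C (pw X n)) : ℝ≥0∞) / cycRank ops (pw X n)) atTop
      (𝓝 (N : ℝ≥0∞))) (hZ : IsPw X Z) : T'.C Z ≤ (pushSys C (hodgeSys Ψ)).C Z := by
  have hnt : Nontrivial (W'.H X) := nontrivial_cmp C
  let _ : Algebra W.K W'.K := C.emb.toAlgebra
  have he : ∀ r, C.emb r = algebraMap W.K W'.K r := fun r => rfl
  obtain ⟨h1, hnd, Y, τ, e, hu⟩ := exists_universal hT' hN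
  obtain ⟨z, hz, -, hz1⟩ := exists_point (W := W') (Z := X) (h1 0)
  have hτ : GrpL W' Y τ := GrpL.of_univ hu hz hz1
  obtain ⟨m, ⟨θ⟩⟩ := hu.pw
  have hτ' := hτ.iso θ
  obtain ⟨b, hb, hbτ⟩ := hτ'.descend (extCmp C he) Function.surjective_id
  have hb1 := hb.hodge_pw (X := X) Ψ
  have hb2 : W'.map θ.inv τ ∈ (pushSys C (hodgeSys Ψ)).C (pw X m) := by
    rw [← hbτ]
    refine base_induction (P := fun x : W'.K ⊗[W.K] W.H (pw X m) => extP C he (pw X m) x ∈
      (pushSys C (hodgeSys Ψ)).C (pw X m)) ?_ ?_ ?_ hb1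
    · rw [map_zero]; exact Submodule.zero_mem _
    · intro x y hx hy
      rw [map_add]; exact Submodule.add_mem _ hx hy
    · intro l a ha
      rw [extP_tmul]
      exact Submodule.smul_mem _ _ (pushSys_mem C ha)
  have hτ2 : τ ∈ (pushSys C (hodgeSys Ψ)).C Y := by
    have h3 := (pushSys C (hodgeSys Ψ)).map θ.hom hb2
    rwa [← W'.map_comp, θ.hom_inv_id, W'.map_id] at h3
  intro t ht
  obtain ⟨x, hx, rfl⟩ := hu.surj Z hZ t ht
  exact Sys.Op.apply (pushSys_alg C (alg_le_hodge Ψ)) hx hτ2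

omit [Algebra W.K ℝ] in
/-- **Hodge classes belong to connected systems, if their index is finite.** -/
theorem hodge_le (C : Cmpn W W') {T : Sys W} (hT : ∀ Z, algSpan W Z ≤ T.C Z)
    [Nontrivial (W.H X)] {T' : Sys W'} (hT' : ∀ Z, algSpan W' Z ≤ T'.C Z) (hconn : Conn T' X)
    {N : ℕ}
    (hN : Tendsto (fun n => (finrank W.K (T.C (pw X n)) : ℝ≥0∞) / cycRank ops (pw X n)) atTop
      (𝓝 (N : ℝ≥0∞))) (hZ : IsPw X Z) {a : W.H Z} (ha : a ∈ T.C Z) : C.φ Z a ∈ T'.C Z := by
  obtain ⟨h1, hnd, Y, τ, e, hu⟩ := exists_universal hT hN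
  obtain ⟨z, hz, -, hz1⟩ := exists_point (W := W) (Z := X) (h1 0)
  have hτ : GrpL W Y τ := GrpL.of_univ hu hz hz1
  have hτ' : C.φ Y τ ∈ T'.C Y := (hτ.cmp C).mem hconn hu.pw
  obtain ⟨x, hx, rfl⟩ := hu.surj Z hZ a ha
  obtain ⟨d, hd, rfl⟩ := Sys.mem_Op.1 hx
  rw [C.corr]
  exact Sys.Op.apply hT' (Sys.Op.corr (S := algSys W') (C.alg hd)) hτ'

end Hodge

section Main

variable [Algebra W.K ℝ]

/-- The index of the Hodge classes is a positive integer or infinite. -/
lemma exists_hodgeIndex [Nontrivial (W.H X)] (Ψ : HodgeStr W) :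
    (∃ N : ℕ, Tendsto (hodgeRatio Ψ X) atTop (𝓝 (N : ℝ≥0∞))) ∨ HodgeDensityZero Ψ X := by
  obtain ⟨N, -, h2, -⟩ := (hodgeSys Ψ.sys).full_index (alg_le_hodge Ψ.sys) X
  have h3 : Tendsto (hodgeRatio Ψ X) atTop (𝓝 (N : ℝ≥0∞)) := h2
  rcases eq_or_ne N ⊤ with hN | hN
  · subst hN
    right
    exact h3
  · left
    lift N to ℕ using hN
    exact ⟨N, h3⟩

/-- Hodge classes and Tate classes. -/
theorem hodge_tate_aux (Ψ : HodgeStr W) (C : Cmpn W W') (X : 𝒱.Obj) [Nontrivial (W.H X)]
    (G : GaloisPowers.{u, v, w} W' X) :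
    (¬ DensityZero G → ∀ n j c, TateClass G n j c →
      c ∈ Submodule.span W'.K (C.φ (pw X n) '' {a | IsHodge Ψ (pw X n) j a})) ∧
    (¬ HodgeDensityZero Ψ X → ∀ n j a, IsHodge Ψ (pw X n) j a →
      TateClass G n j (C.φ (pw X n) a)) ∧
    (StrongHodge Ψ X → StrongTate G ∨ DensityZero G) ∧
    (StrongTate G → StrongHodge Ψ X ∨ HodgeDensityZero Ψ X) := by
  have hnt : Nontrivial (W'.H X) := nontrivial_cmp C
  have hA : ¬ DensityZero G → ∀ n j c, TateClass G n j c →
      c ∈ Submodule.span W'.K (C.φ (pw X n) '' {a | IsHodge Ψ (pw X n) j a}) := by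
    intro hG n j c hc
    obtain ⟨N, -, hN, -⟩ := exists_tateIndex' hG
    have hN' : Tendsto (fun n => (finrank W'.K ((extSys (powSys_TG G.isAction)).C (pw X n)) :
        ℝ≥0∞) / cycRank ops (pw X n)) atTop (𝓝 (N : ℝ≥0∞)) := by
      have e1 : ∀ n, finrank W'.K ((extSys (powSys_TG G.isAction)).C (pw X n)) =
          tateDim W' X G.χ G.ρ n := by
        intro n
        rw [extSys_pw, Pool.Agent.Y129.finrank_TG]
      simp only [e1, ← tateRatio_def]
      exact hN
    have h1 : c ∈ (extSys (powSys_TG G.isAction)).C (pw X n) := by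
      rw [extSys_pw]
      exact Submodule.mem_iSup_of_mem j hc
    have h2 := le_hodge Ψ.sys C (extSys_alg (powSys_TG G.isAction)) hN' (IsPw.of X n) h1
    have h3 : proj (W'.isInternal (pw X n)) (2 * j) c = c := proj_same _ hc.1
    rw [← h3]
    have key : ∀ x ∈ (pushSys C (hodgeSys Ψ.sys)).C (pw X n),
        proj (W'.isInternal (pw X n)) (2 * j) x ∈
        Submodule.span W'.K (C.φ (pw X n) '' {a | IsHodge Ψ (pw X n) j a}) := by
      intro x hx
      have hx' : x ∈ Submodule.span W'.K (C.φ (pw X n) '' ((hodgeSys Ψ.sys).C (pw X n))) := hx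
      clear hx
      induction hx' using Submodule.span_induction with
      | mem x hx =>
        obtain ⟨a, ha, rfl⟩ := hx
        rw [← C.proj]
        exact Submodule.subset_span ⟨_, hodgeSpan.proj ha j, rfl⟩
      | zero => rw [map_zero]; exact Submodule.zero_mem _
      | add x y _ _ hx hy =>
        rw [map_add]
        exact Submodule.add_mem _ hx hy
      | smul r x _ hx =>
        rw [map_smul]
        exact Submodule.smul_mem _ _ hx
    exact key c h2
  have hB : ¬ HodgeDensityZero Ψ X → ∀ n j a, IsHodge Ψ (pw X n) j a →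
      TateClass G n j (C.φ (pw X n) a) := by
    intro hH n j a ha
    obtain ⟨N, hN⟩ := (exists_hodgeIndex Ψ).resolve_right hH
    have h1 := hodge_le C (T := hodgeSys Ψ.sys) (alg_le_hodge Ψ.sys)
      (T' := extSys (powSys_TG G.isAction)) (extSys_alg (powSys_TG G.isAction))
      (conn_TG G.isAction) (N := N) hN (IsPw.of X n) (hodgeSpan.of ha)
    rw [extSys_pw] at h1
    have h2 := TG_proj h1 j
    rw [proj_same _ (C.gr _ _ a ha.1)] at h2
    exact h2
  refine ⟨hA, hB, fun hH => ?_, fun hT => ?_⟩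
  · by_cases hG : DensityZero G
    · exact Or.inr hG
    · left
      obtain ⟨N, -, -, hD⟩ := exists_tateIndex' hG
      refine fun n => ⟨fun j c hc => ?_, hD n⟩
      have h1 := hA hG n j c hc
      refine Submodule.span_le.2 ?_ h1
      rintro _ ⟨a, ha, rfl⟩
      have h2 : a ∈ spanCycles W (pw X n) j := hH n j a ha
      clear ha
      change C.φ (pw X n) a ∈ Submodule.span W'.K (algClasses W' (pw X n) j)
      induction h2 using Submodule.span_induction with
      | mem x hx =>
        obtain ⟨p, hp, z, hz, rfl⟩ := hx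
        obtain rfl : p = j := by exact_mod_cast hp
        rw [C.cl]
        exact Submodule.subset_span ⟨z, hz, rfl⟩
      | zero => rw [map_zero]; exact Submodule.zero_mem _
      | add x y _ _ hx hy => rw [map_add]; exact Submodule.add_mem _ hx hy
      | smul r x _ hx => rw [C.smul]; exact Submodule.smul_mem _ _ hx
  · by_cases hH : HodgeDensityZero Ψ X
    · exact Or.inr hH
    · left
      intro n j a ha
      let _ : Algebra W.K W'.K := C.emb.toAlgebra
      have he : ∀ r, C.emb r = algebraMap W.K W'.K r := fun r => rfl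
      apply descend C he
      have h1 := (hT n).1 j _ (hB hH n j a ha)
      refine Submodule.span_mono ?_ h1
      rintro _ ⟨z, hz, rfl⟩
      exact ⟨W.cl _ z, Submodule.subset_span ⟨j, rfl, z, hz, rfl⟩, C.cl _ z⟩

/-- Hodge classes and Tate classes. -/
theorem hodge_tate (Ψ : HodgeStr W) (C : Comparison W W') (X : 𝒱.Obj) [Nontrivial (W.H X)]
    (G : GaloisPowers.{u, v, w} W' X) :
    (TateInHodge Ψ C G ∨ DensityZero G) ∧ (HodgeInTate Ψ C G ∨ HodgeDensityZero Ψ X) ∧
    (StrongHodge Ψ X → StrongTate G ∨ DensityZero G) ∧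
    (StrongTate G → StrongHodge Ψ X ∨ HodgeDensityZero Ψ X) := by
  obtain ⟨hA, hB, h3, h4⟩ := hodge_tate_aux Ψ C.toCmpn X G
  exact ⟨or_iff_not_imp_right.2 hA, or_iff_not_imp_right.2 hB, h3, h4⟩

end Main

end Pool.Agent.V7H5.TH
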