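import Mathlib

/-!
# Elements of the tensor product of two field extensions
-/

open TensorProduct Module Polynomial

universe v

namespace Pool.Agent.V7H5.TH

variable {K : Type v} [Field K] [CharZero K]

omit [CharZero K] in
/-- An element with `x ⊗ 1 = 1 ⊗ x` belongs to the ground field. -/
lemma mem_of_tmul {M : Type v} [Field M] [Algebra K M] {x : M}
    (h : x ⊗ₜ[K] (1 : M) = (1 : M) ⊗ₜ[K] x) : x ∈ Set.range (algebraMap K M) := by
  obtain ⟨l, hl⟩ := LinearMap.exists_leftInverse_of_injective (Algebra.linearMap K M)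
    (LinearMap.ker_eq_bot.2 (algebraMap K M).injective)
  have h1 : l 1 = 1 := by
    have := LinearMap.congr_fun hl 1
    simpa using this
  have h2 := congrArg (fun z => (TensorProduct.rid K M) ((LinearMap.lTensor M l) z)) h
  simp only [LinearMap.lTensor_tmul, TensorProduct.rid_tmul, h1, one_smul] at h2
  exact ⟨l x, by rw [Algebra.algebraMap_eq_smul_one, ← h2]⟩

/-- If `x ⊗ 1 - 1 ⊗ x` is nilpotent then `x` belongs to the ground field. -/
lemma mem_of_nilpotent {M : Type v} [Field M] [Algebra K M] {x : M}
    (h : IsNilpotent (x ⊗ₜ[K] (1 : M) - (1 : M) ⊗ₜ[K] x)) : x ∈ Set.range (algebraMap K M) := by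
  by_cases hx : IsAlgebraic K x
  · let E := IntermediateField.adjoin K {x}
    have hfin : FiniteDimensional K E := IntermediateField.adjoin.finiteDimensional hx.isIntegral
    have h00 : Algebra.FormallyUnramified K E := Algebra.FormallyUnramified.of_isSeparable K E
    have h0 : Algebra.FormallyUnramified M (M ⊗[K] E) := inferInstance
    have h1 : IsReduced (M ⊗[K] E) :=
      Algebra.FormallyUnramified.isReduced_of_field M (M ⊗[K] E)
    let x₀ : E := ⟨x, IntermediateField.mem_adjoin_simple_self K x⟩
    have hinj : Function.Injective (Algebra.TensorProduct.map (AlgHom.id K M) E.val) :=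
      Module.Flat.lTensor_preserves_injective_linearMap (M := M) E.val.toLinearMap
        E.val.injective
    have h2 : Algebra.TensorProduct.map (AlgHom.id K M) E.val
        (x ⊗ₜ[K] (1 : E) - (1 : M) ⊗ₜ[K] x₀) = x ⊗ₜ[K] (1 : M) - (1 : M) ⊗ₜ[K] x := by
      rw [map_sub, Algebra.TensorProduct.map_tmul, Algebra.TensorProduct.map_tmul, map_one]
      rfl
    rw [← h2, IsNilpotent.map_iff hinj] at h
    have h3 := h.eq_zero
    rw [h3, map_zero] at h2
    exact mem_of_tmul (sub_eq_zero.1 h2.symm)
  · exfalso
    have ht : Transcendental K x := hx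
    have hinj0 : Function.Injective (aeval (R := K) x) := transcendental_iff_injective.1 ht
    have hinj : Function.Injective (Algebra.TensorProduct.map (aeval (R := K) x)
        (aeval (R := K) x)) := by
      have h1 : (Algebra.TensorProduct.map (aeval (R := K) x)
          (aeval (R := K) x) : K[X] ⊗[K] K[X] →ₐ[K] M ⊗[K] M).toLinearMap =
          TensorProduct.map (aeval (R := K) x).toLinearMap (aeval (R := K) x).toLinearMap := rfl
      have h2 : Function.Injective (TensorProduct.map (aeval (R := K) x).toLinearMap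
          (aeval (R := K) x).toLinearMap) := by
        rw [← LinearMap.lTensor_comp_rTensor]
        exact (Module.Flat.lTensor_preserves_injective_linearMap _ hinj0).comp
          (Module.Flat.rTensor_preserves_injective_linearMap _ hinj0)
      intro a b hab
      apply h2
      rw [← h1]
      exact hab
    have h2 : Algebra.TensorProduct.map (aeval (R := K) x) (aeval (R := K) x)
        ((X : K[X]) ⊗ₜ[K] (1 : K[X]) - (1 : K[X]) ⊗ₜ[K] (X : K[X])) =
        x ⊗ₜ[K] (1 : M) - (1 : M) ⊗ₜ[K] x := by
      rw [map_sub, Algebra.TensorProduct.map_tmul, Algebra.TensorProduct.map_tmul, map_one,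
        aeval_X]
    rw [← h2, IsNilpotent.map_iff hinj] at h
    have h3 := h.map (Algebra.TensorProduct.lift (AlgHom.id K K[X]) (aeval (R := K) (0 : K[X]))
      (fun _ _ => Commute.all _ _))
    rw [map_sub, Algebra.TensorProduct.lift_tmul, Algebra.TensorProduct.lift_tmul, map_one,
      map_one, aeval_X, mul_zero, sub_zero, mul_one, AlgHom.id_apply] at h3
    exact X_ne_zero h3.eq_zero

/-- Elements outside of the ground field are moved by a change of the embedding. -/
lemma exists_pair {M : Type v} [Field M] [Algebra K M] {x : M}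
    (hx : x ∉ Set.range (algebraMap K M)) :
    ∃ (N : Type v) (_ : Field N) (_ : Algebra K N) (f g : M →ₐ[K] N), f x ≠ g x := by
  have h1 : ¬ IsNilpotent (x ⊗ₜ[K] (1 : M) - (1 : M) ⊗ₜ[K] x) := fun h => hx (mem_of_nilpotent h)
  obtain ⟨p, hp, hxp⟩ : ∃ p : Ideal (M ⊗[K] M), p.IsPrime ∧
      x ⊗ₜ[K] (1 : M) - (1 : M) ⊗ₜ[K] x ∉ p := by
    by_contra hcon
    push Not at hcon
    apply h1
    rw [← mem_nilradical, nilradical_eq_sInf, Submodule.mem_sInf]
    exact fun p hp => hcon p hp
  refine ⟨p.ResidueField, inferInstance, inferInstance,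
    (IsScalarTower.toAlgHom K (M ⊗[K] M) p.ResidueField).comp
      Algebra.TensorProduct.includeLeft,
    (IsScalarTower.toAlgHom K (M ⊗[K] M) p.ResidueField).comp
      Algebra.TensorProduct.includeRight, fun h => hxp ?_⟩
  have h2 : algebraMap (M ⊗[K] M) p.ResidueField (x ⊗ₜ[K] (1 : M) - (1 : M) ⊗ₜ[K] x) = 0 := by
    rw [map_sub, sub_eq_zero]
    exact h
  exact Ideal.algebraMap_residueField_eq_zero.1 h2

variable {E : Type} [Field E] [Algebra K E]

omit [CharZero K] in
/-- A common extension. -/
lemma exists_ext (F : Type v) [Field F] [Algebra K F] (E : Type) [Field E] [Algebra K E] :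
    ∃ (N : Type v) (_ : Field N) (_ : Algebra K N), Nonempty (F →ₐ[K] N) ∧
      Nonempty (E →ₐ[K] N) := by
  have h1 : Nontrivial (F ⊗[K] E) :=
    Algebra.TensorProduct.nontrivial_of_algebraMap_injective_of_flat_left K F E
      (algebraMap K E).injective
  obtain ⟨p, hp⟩ := Ideal.exists_maximal (F ⊗[K] E)
  have hp' : p.IsPrime := hp.isPrime
  exact ⟨p.ResidueField, inferInstance, inferInstance,
    ⟨(IsScalarTower.toAlgHom K (F ⊗[K] E) p.ResidueField).comp
      Algebra.TensorProduct.includeLeft⟩,
    ⟨(IsScalarTower.toAlgHom K (F ⊗[K] E) p.ResidueField).comp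
      Algebra.TensorProduct.includeRight⟩⟩

/-- The element `z` vanishes under all pairs of embeddings. -/
def Killed {F : Type v} [Field F] [Algebra K F] (z : F ⊗[K] E) : Prop :=
  ∀ (N : Type v) (_ : Field N) (_ : Algebra K N) (f : F →ₐ[K] N) (g : E →ₐ[K] N),
    Algebra.TensorProduct.lift f g (fun _ _ => Commute.all _ _) z = 0

/-- The basis. -/
noncomputable abbrev bE (F : Type v) [Field F] [Algebra K F] (E : Type) [Field E]
    [Algebra K E] : Basis (Basis.ofVectorSpaceIndex K E) F (F ⊗[K] E) :=
  Algebra.TensorProduct.basis F (Basis.ofVectorSpace K E)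

omit [CharZero K] in
lemma repr_map {F N : Type v} [Field F] [Algebra K F] [Field N] [Algebra K N] (f : F →ₐ[K] N)
    (z : F ⊗[K] E) (i : Basis.ofVectorSpaceIndex K E) :
    (bE N E).repr (Algebra.TensorProduct.map f (AlgHom.id K E) z) i = f ((bE F E).repr z i) := by
  induction z using TensorProduct.induction_on with
  | zero => rw [map_zero, map_zero, map_zero, Finsupp.zero_apply, Finsupp.zero_apply, map_zero]
  | add x y hx hy => rw [map_add, map_add, map_add, Finsupp.add_apply, Finsupp.add_apply, hx, hy,
      map_add]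
  | tmul l a =>
    rw [Algebra.TensorProduct.map_tmul, Algebra.TensorProduct.basis_repr_tmul,
      Algebra.TensorProduct.basis_repr_tmul, Finsupp.smul_apply, Finsupp.smul_apply,
      smul_eq_mul, smul_eq_mul, map_mul, AlgHom.id_apply, Finsupp.mapRange_apply,
      Finsupp.mapRange_apply, AlgHom.commutes]

/-- **The tensor product of two field extensions is reduced, in terms of embeddings.** -/
theorem eq_zero_of_killed (n : ℕ) : ∀ (F : Type v) (_ : Field F) (_ : Algebra K F)
    (z : F ⊗[K] E), ((bE F E).repr z).support.card = n → Killed z → z = 0 := by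
  classical
  induction n using Nat.strong_induction_on with
  | _ n ih =>
  intro F _ _ z hn hz
  by_contra hz0
  have hne : (bE F E).repr z ≠ 0 := fun h => hz0 ((LinearEquiv.map_eq_zero_iff _).1 h)
  obtain ⟨i₀, hi₀⟩ := Finsupp.support_nonempty_iff.2 hne
  set a := (bE F E).repr z i₀ with ha
  have ha0 : a ≠ 0 := Finsupp.mem_support_iff.1 hi₀
  set z' : F ⊗[K] E := a⁻¹ • z with hz'
  have hz'0 : z' ≠ 0 := smul_ne_zero (inv_ne_zero ha0) hz0
  have hrepr : ∀ i, (bE F E).repr z' i = a⁻¹ * (bE F E).repr z i := by
    intro i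
    rw [hz', map_smul, Finsupp.smul_apply, smul_eq_mul]
  have hi₀' : (bE F E).repr z' i₀ = 1 := by rw [hrepr, ← ha, inv_mul_cancel₀ ha0]
  have hK : ∀ (N : Type v) (_ : Field N) (_ : Algebra K N) (f : F →ₐ[K] N) (g : E →ₐ[K] N),
      Algebra.TensorProduct.lift f g (fun _ _ => Commute.all _ _) z' = 0 := by
    intro N _ _ f g
    have h1 : z' = (a⁻¹ ⊗ₜ[K] (1 : E)) * z := by
      rw [hz', Algebra.smul_def]
      rfl
    rw [h1, map_mul, hz N _ _ f g, mul_zero]
  -- all coordinates are in the ground field
  have hrange : ∀ i, (bE F E).repr z' i ∈ Set.range (algebraMap K F) := by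
    intro i
    by_contra hi
    obtain ⟨N, _, _, f, g, hfg⟩ := exists_pair hi
    set w := Algebra.TensorProduct.map f (AlgHom.id K E) z' -
      Algebra.TensorProduct.map g (AlgHom.id K E) z' with hw
    have hwr : ∀ i, (bE N E).repr w i = f ((bE F E).repr z' i) - g ((bE F E).repr z' i) := by
      intro i
      rw [hw, map_sub, Finsupp.sub_apply, repr_map, repr_map]
    have hsub : ((bE N E).repr w).support ⊂ ((bE F E).repr z).support := by
      rw [Finset.ssubset_iff_of_subset]
      · refine ⟨i₀, hi₀, ?_⟩
        rw [Finsupp.mem_support_iff, not_not, hwr, hi₀', map_one, map_one, sub_self]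
      · intro i hi
        rw [Finsupp.mem_support_iff] at hi ⊢
        intro h
        apply hi
        rw [hwr, hrepr, h, mul_zero, map_zero, map_zero, sub_zero]
    have hw0 := ih _ (hn ▸ Finset.card_lt_card hsub) N _ _ w rfl (by
      intro N' _ _ f' g'
      have h1 : ∀ (φ : F →ₐ[K] N), Algebra.TensorProduct.lift f' g' (fun _ _ => Commute.all _ _)
          (Algebra.TensorProduct.map φ (AlgHom.id K E) z') =
          Algebra.TensorProduct.lift (f'.comp φ) g' (fun _ _ => Commute.all _ _) z' := by
        intro φ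
        have h2 : (Algebra.TensorProduct.lift f' g' (fun _ _ => Commute.all _ _)).comp
            (Algebra.TensorProduct.map φ (AlgHom.id K E)) =
            Algebra.TensorProduct.lift (f'.comp φ) g' (fun _ _ => Commute.all _ _) := by
          apply Algebra.TensorProduct.ext'
          intro x y
          rw [AlgHom.comp_apply, Algebra.TensorProduct.map_tmul,
            Algebra.TensorProduct.lift_tmul, Algebra.TensorProduct.lift_tmul]
          rfl
        exact DFunLike.congr_fun h2 z'
      rw [hw, map_sub, h1, h1, hK N' _ _ _ g', hK N' _ _ _ g', sub_zero])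
    have h3 := hwr i
    rw [hw0, map_zero, Finsupp.zero_apply] at h3
    exact hfg (sub_eq_zero.1 h3.symm)
  choose c hc using hrange
  have h1 : z' = (1 : F) ⊗ₜ[K] (∑ i ∈ ((bE F E).repr z').support, c i •
      Basis.ofVectorSpace K E i) := by
    rw [TensorProduct.tmul_sum]
    conv_lhs => rw [← (bE F E).linearCombination_repr z', Finsupp.linearCombination_apply,
      Finsupp.sum]
    refine Finset.sum_congr rfl fun i _ => ?_
    rw [Algebra.TensorProduct.basis_apply, ← hc i, algebraMap_smul, TensorProduct.tmul_smul]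
  obtain ⟨N, _, _, ⟨f⟩, ⟨g⟩⟩ := exists_ext (K := K) F E
  have h2 := hK N _ _ f g
  rw [h1, Algebra.TensorProduct.lift_tmul, map_one, one_mul] at h2
  have h3 := (map_eq_zero g).1 h2
  rw [h3, TensorProduct.tmul_zero] at h1
  exact hz'0 h1

end Pool.Agent.V7H5.TH
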