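import Pool.Agent.V7H5.TI.Main
import Pool.Agent.V7H5.TH.CDefs
import Pool.Agent.V7H5.TH.Red

/-!
# Comparisons of Weil cohomology theories and group-like classes
-/

open CategoryTheory AlgebraicGeometry TensorProduct

universe u v

namespace Pool.Agent.V7H5.TH

open Module
open Pool.Agent.H914 Pool.Agent.H914.VarClass Pool.Agent.H914.VarClass.Obj
  Pool.Agent.H914.WeilCohomology Pool.Agent.H281R3.HT Pool.Agent.V7H5.TI
open Pool.Agent.Y133.Half hiding pw
open Pool.Agent.Y129 (pw)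

variable {k : Type u} [Field k] {𝒱 : VarClass k} {ops : CycleOps 𝒱}
  {W W' : WeilCohomology.{u, v} ops} {X Y Z : 𝒱.Obj}

/-- Comparisons with ring homomorphisms. -/
structure Cmpn (W W' : WeilCohomology.{u, v} ops) where
  /-- the embedding of the coefficients -/
  emb : W.K →+* W'.K
  /-- the maps between the cohomology groups -/
  φ : ∀ Y : 𝒱.Obj, W.H Y →+* W'.H Y
  smul : ∀ (Y : 𝒱.Obj) (r : W.K) (x : W.H Y), φ Y (r • x) = emb r • φ Y x
  gr : ∀ (Y : 𝒱.Obj) (i : ℕ) (x : W.H Y), x ∈ W.gr Y i → φ Y x ∈ W'.gr Y i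
  map : ∀ (Y Z : 𝒱.Obj) (f : Y ⟶ Z) (x : W.H Z), φ Y (W.map f x) = W'.map f (φ Z x)
  tr : ∀ (Y : 𝒱.Obj) (x : W.H Y), W'.tr Y (φ Y x) = emb (W.tr Y x)
  cl : ∀ (Y : 𝒱.Obj) (z : Y.Cycles), φ Y (W.cl Y z) = W'.cl Y z
  span : ∀ Y : 𝒱.Obj, Submodule.span W'.K (Set.range (φ Y)) = ⊤

/-- The comparison as a family of ring homomorphisms. -/
def Comparison.toCmpn (C : Comparison W W') : Cmpn W W' where
  emb := C.emb
  φ Y :=
    { toFun := C.φ Y
      map_one' := (C.ext Y).one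
      map_mul' := (C.ext Y).mul
      map_zero' := by
        have h1 := (C.ext Y).add 0 0
        rw [add_zero] at h1
        exact left_eq_add.1 h1
      map_add' := (C.ext Y).add }
  smul Y := (C.ext Y).smul
  gr Y i x hx := (C.ext Y).degree i x hx
  map Y Z f x := C.map Y Z f x
  tr Y := (C.ext Y).trace
  cl := C.cl
  span Y := (C.ext Y).span

namespace Cmpn

variable (C : Cmpn W W')

lemma inj {a : W.H Y} (h : C.φ Y a = 0) : a = 0 := by
  apply W.nondeg
  intro b
  have h1 := C.tr Y (a * b)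
  rw [map_mul, h, zero_mul, map_zero] at h1
  exact (map_eq_zero C.emb).1 h1.symm

lemma injective (Y : 𝒱.Obj) : Function.Injective (C.φ Y) :=
  (injective_iff_map_eq_zero _).2 fun _ h => C.inj h

/-- Compatibility with push-forwards. -/
lemma push (f : Y ⟶ Z) (a : W.H Y) : C.φ Z (W.push f a) = W'.push f (C.φ Y a) := by
  rw [← sub_eq_zero]
  apply W'.nondeg
  intro b
  have hb : b ∈ Submodule.span W'.K (Set.range (C.φ Z)) := by
    rw [C.span Z]; exact Submodule.mem_top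
  induction hb using Submodule.span_induction with
  | mem x hx =>
    obtain ⟨y, rfl⟩ := hx
    rw [sub_mul, map_sub, W'.tr_push, ← C.map, ← map_mul, ← map_mul, C.tr, C.tr, W.tr_push,
      sub_self]
  | zero => rw [mul_zero, map_zero]
  | add x y _ _ hx hy => rw [mul_add, map_add, hx, hy, add_zero]
  | smul r x _ hx => rw [mul_smul_comm, map_smul, hx, smul_zero]

lemma corr (c : W.H (Y.prod Z)) (a : W.H Y) :
    C.φ Z (W.corr c a) = W'.corr (C.φ _ c) (C.φ Y a) := by
  rw [corr_apply, corr_apply, C.push, map_mul, C.map]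

lemma xp (a : W.H Y) (b : W.H Z) : C.φ _ (xp W a b) = Pool.Agent.Y133.Half.xp W' (C.φ Y a) (C.φ Z b) := by
  rw [xp_def, xp_def, map_mul, C.map, C.map]

lemma alg {c : W.H Z} (hc : c ∈ algSpan W Z) : C.φ Z c ∈ algSpan W' Z := by
  induction hc using Submodule.span_induction with
  | mem x hx =>
    obtain ⟨j, z, hz, rfl⟩ := Set.mem_iUnion.1 hx
    rw [C.cl]
    exact Submodule.subset_span (Set.mem_iUnion.2 ⟨j, z, hz, rfl⟩)
  | zero => rw [map_zero]; exact Submodule.zero_mem _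
  | add x y _ _ hx hy => rw [map_add]; exact Submodule.add_mem _ hx hy
  | smul r x _ hx => rw [C.smul]; exact Submodule.smul_mem _ _ hx

/-- Algebraic classes come from algebraic classes if the coefficients are the same. -/
lemma exists_alg (hs : Function.Surjective C.emb) {c : W'.H Z} (hc : c ∈ algSpan W' Z) :
    ∃ d ∈ algSpan W Z, C.φ Z d = c := by
  induction hc using Submodule.span_induction with
  | mem x hx =>
    obtain ⟨j, z, hz, rfl⟩ := Set.mem_iUnion.1 hx
    exact ⟨W.cl Z z, Submodule.subset_span (Set.mem_iUnion.2 ⟨j, z, hz, rfl⟩), C.cl Z z⟩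
  | zero => exact ⟨0, Submodule.zero_mem _, map_zero _⟩
  | add x y _ _ hx hy =>
    obtain ⟨d, hd, rfl⟩ := hx
    obtain ⟨d', hd', rfl⟩ := hy
    exact ⟨d + d', Submodule.add_mem _ hd hd', map_add _ _ _⟩
  | smul r x _ hx =>
    obtain ⟨d, hd, rfl⟩ := hx
    obtain ⟨s, rfl⟩ := hs r
    exact ⟨s • d, Submodule.smul_mem _ _ hd, C.smul _ _ _⟩

lemma surjective (hs : Function.Surjective C.emb) (c : W'.H Z) : ∃ d, C.φ Z d = c := by
  have hc : c ∈ Submodule.span W'.K (Set.range (C.φ Z)) := by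
    rw [C.span Z]; exact Submodule.mem_top
  induction hc using Submodule.span_induction with
  | mem x hx => exact hx
  | zero => exact ⟨0, map_zero _⟩
  | add x y _ _ hx hy =>
    obtain ⟨d, rfl⟩ := hx
    obtain ⟨d', rfl⟩ := hy
    exact ⟨d + d', map_add _ _ _⟩
  | smul r x _ hx =>
    obtain ⟨d, rfl⟩ := hx
    obtain ⟨s, rfl⟩ := hs r
    exact ⟨s • d, C.smul _ _ _⟩

lemma even {a : W.H Y} {b : ℕ} (ha : a ∈ PH W Y b) : C.φ Y a ∈ PH W' Y b := by
  refine PH.ind (p := fun a => C.φ Y a ∈ PH W' Y b) ?_ ?_ ?_ ha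
  · intro i hi x hx
    exact PH.of' hi (C.gr Y i x hx)
  · rw [map_zero]; exact Submodule.zero_mem _
  · intro x y hx hy
    rw [map_add]; exact Submodule.add_mem _ hx hy

/-- The comparison respects the projections to the homogeneous parts. -/
lemma proj (i : ℕ) (a : W.H Y) :
    C.φ Y (Pool.Agent.H914.proj (W.isInternal Y) i a) =
      Pool.Agent.H914.proj (W'.isInternal Y) i (C.φ Y a) := by
  refine gr_induction (W.isInternal Y) (p := fun a =>
    C.φ Y (Pool.Agent.H914.proj (W.isInternal Y) i a) =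
      Pool.Agent.H914.proj (W'.isInternal Y) i (C.φ Y a)) ?_ ?_ a
  · intro j x hx
    by_cases hij : i = j
    · subst hij
      rw [proj_same _ hx, proj_same _ (C.gr Y i x hx)]
    · rw [proj_ne _ hx (Ne.symm hij), proj_ne _ (C.gr Y j x hx) (Ne.symm hij), map_zero]
  · intro x y hx hy
    rw [map_add, map_add, map_add, map_add, hx, hy]

end Cmpn

/-- Group-like classes for algebraic comultiplications. -/
def GrpL (W : WeilCohomology.{u, v} ops) (Y : 𝒱.Obj) (b : W.H Y) : Prop :=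
  b ∈ PH W Y 0 ∧ b ≠ 0 ∧ ∃ c ∈ algSpan W (Y.prod (Y.prod Y)), W.corr c b = xp W b b

lemma GrpL.mem {T : Sys W} (hT : Conn T X) (hY : IsPw X Y) {b : W.H Y} (hb : GrpL W Y b) :
    b ∈ T.C Y := by
  obtain ⟨h1, h2, c, hc, h3⟩ := hb
  exact hT Y hY _ (Sys.Op.corr hc) b h1 h2 h3

lemma GrpL.cmp (C : Cmpn W W') {b : W.H Y} (hb : GrpL W Y b) : GrpL W' Y (C.φ Y b) := by
  obtain ⟨h1, h2, c, hc, h3⟩ := hb
  refine ⟨C.even h1, fun h => h2 (C.inj h), _, C.alg hc, ?_⟩
  rw [← C.corr, h3, C.xp]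

lemma GrpL.descend (C : Cmpn W W') (hs : Function.Surjective C.emb) {b : W'.H Y}
    (hb : GrpL W' Y b) : ∃ d, GrpL W Y d ∧ C.φ Y d = b := by
  obtain ⟨h1, h2, c, hc, h3⟩ := hb
  obtain ⟨d, rfl⟩ := C.surjective hs b
  obtain ⟨c, hc', rfl⟩ := C.exists_alg hs hc
  refine ⟨d, ⟨?_, fun h => h2 (by rw [h, map_zero]), c, hc', ?_⟩, rfl⟩
  · -- the odd part vanishes
    obtain ⟨d₀, hd₀, d₁, hd₁, rfl⟩ := exists_even_odd d
    have h4 : C.φ Y d₁ = 0 := by
      have h5 : C.φ Y d₁ ∈ PH W' Y 0 := by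
        have h6 : C.φ Y d₁ = C.φ Y (d₀ + d₁) - C.φ Y d₀ := by rw [map_add]; abel
        rw [h6]
        exact Submodule.sub_mem _ h1 (C.even hd₀)
      have h7 := PH.par (C.even hd₁)
      rw [PH.par h5, pow_zero, one_smul, pow_one, neg_one_smul] at h7
      have h8 : (2 : W'.K) • C.φ Y d₁ = 0 := by
        rw [two_smul]
        nth_rewrite 1 [h7]
        exact neg_add_cancel _
      exact (smul_eq_zero.1 h8).resolve_left two_ne_zero
    rw [C.inj h4, add_zero]
    exact hd₀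
  · apply C.injective
    rw [C.corr, h3, C.xp]

/-- Universal classes are group-like. -/
lemma GrpL.of_univ {T : Sys W} {e : Module.End W.K (W.H Y)} {τ : W.H Y} (hu : IsUniv T X Y e τ)
    {z : W.H X} (hz : z ∈ algSpan W X) (hz1 : W.tr X z = 1) : GrpL W Y τ := by
  obtain ⟨c, hc, ε, hε, -, -, hcτ, hετ⟩ := hu.exists_comult hz hz1
  refine ⟨T.even hu.mem, fun h => ?_, c, hc, hcτ⟩
  rw [h, mul_zero, map_zero] at hετ
  exact zero_ne_one hετ

end Pool.Agent.V7H5.TH
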